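import Pool.Agent.Lib.MP_b09490_nt.Main

set_option autoImplicit false

namespace Pool.Agent.Results.MP_b09490_nt.Sparse

/-- The class of `n`: the least `k ≥ 1` such that the `k`-th iterate of Euler's function sends `n`
to `1`. -/
noncomputable def cls (n : ℕ) : ℕ := sInf {k : ℕ | 1 ≤ k ∧ Nat.totient^[k] n = 1}

open Pool.Agent.Lib.MP_b09490_nt in
theorem result (K : ℕ) : ∃ C : ℝ, ∀ x : ℕ,
    (Set.ncard {n : ℕ | 2 ≤ n ∧ n ≤ x ∧ n < K * 2 ^ cls n} : ℝ) ≤ C * (x : ℝ) ^ (3 / 10 : ℝ) := by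
  obtain ⟨C, hC⟩ := count_le (2 * K)
  refine ⟨C, fun x => ?_⟩
  have hf : {n : ℕ | 2 ≤ n ∧ n ≤ x ∧ n < K * 2 ^ cls n}.Finite :=
    (Set.finite_Iic x).subset fun n hn => hn.2.1
  rw [Set.ncard_eq_toFinset_card _ hf]
  refine hC x _ fun n hn => ?_
  obtain ⟨h1, h2, h3⟩ := hf.mem_toFinset.1 hn
  refine ⟨by omega, h2, h3.le.trans ?_⟩
  have h4 : cls n ≤ D n + 1 := Nat.sInf_le ⟨by omega, iterate_D_succ (by omega)⟩
  calc K * 2 ^ cls n ≤ K * 2 ^ (D n + 1) :=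
        Nat.mul_le_mul_left _ (Nat.pow_le_pow_right (by norm_num) h4)
    _ = _ := by ring

end Pool.Agent.Results.MP_b09490_nt.Sparse
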